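import Pool.Agent.Helper12.Node
import Pool.Agent.Helper68.OperW.Split

namespace Helper12.W

open Polynomial Filter

section

variable {R Ω : Type*} [CommRing R] [Algebra.FiniteType ℤ R] [Field Ω] [CharZero Ω]
  [IsAlgClosed Ω] (ι : R →+* Ω) (v : QVal Ω) {n : ℕ} (b : Fin n → R) (r : ℕ)
  (P Q : ℕ → R[X])

/-- The standing hypothesis on the second coefficient. -/
def SecondCoeff (ι : R →+* Ω) (b : Fin n → R) (r : ℕ) (P : ℕ → R[X]) (c : Fin n → Ω) (δ : Fin n → ℚ) :
    Prop :=
  (P 2).map ι = - C ((((r + 1).choose 3 : ℕ)) : Ω) * ∑ i, (C (δ i : Ω) + C (c i) * (X - C (ι (b i)))) *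
    ∏ j ∈ Finset.univ.erase i, (X - C (ι (b j))) ^ 2

omit [Algebra.FiniteType ℤ R] [IsAlgClosed Ω] in
theorem node_pre (c : Fin n → Ω) (δ : Fin n → ℚ) (hr : 2 ≤ r) (hP2 : SecondCoeff ι b r P c δ)
    {i0 : Fin n} {I : Finset (Fin n)} {lo hi : ℚ}
    (ann : Ann v (fun i => ι (b i)) i0 I lo hi) (ρ : ℚ) (hρ1 : lo < ρ) (hρ2 : ρ < hi)
    (hint : ∀ m, (tco ι (ι (b i0)) (P 2) m = 0 ∨
        0 ≤ cval 0 (v.r (outerC (fun i => ι (b i)) i0 I)) I.card 2 m
          (v.r (tco ι (ι (b i0)) (P 2) m)) ρ))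
    (η s : Ω) (hη : η ≠ 0) (hs : s ≠ 0) (hηr : v.r η = ρ)
    (hs2 : s ^ 2 = η ^ I.card * outerC (fun i => ι (b i)) i0 I)
    (hsr : v.r s = (I.card * ρ + v.r (outerC (fun i => ι (b i)) i0 I)) / 2)
    (e : ℕ) (hd : I.card = e + 1) :
    ∃ T : Ω, v.ge 0 T ∧ v.gt 0 (∑ i ∈ I, ((δ i : Ω) + c i * (ι (b i) - ι (b i0))) - T) ∧
      (C ((η / s ^ 2) ^ 2) * substHom ι (ι (b i0)) η (P 2)).coeff (2 * e) =
        - ((((r + 1).choose 3 : ℕ)) : Ω) * T ∧ v.ge (-ρ) (∑ i ∈ I, c i) := by
  classical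
  set β : Fin n → Ω := fun i => ι (b i) with hβ
  set B : Ω := ((((r + 1).choose 3 : ℕ)) : Ω) with hB
  have hBne : (r + 1).choose 3 ≠ 0 := (Nat.choose_pos (by omega)).ne'
  have hs2' : s ^ 2 ≠ 0 := pow_ne_zero _ hs
  obtain ⟨F1, hF1, hF1'⟩ := exists_model_linear v I (fun i => (ι (b i) - ι (b i0)) / η) (by
    intro i hi
    have := ann.inside i hi
    by_cases h0 : ι (b i) - ι (b i0) = 0
    · rw [h0, zero_div]; exact v.gt_zero 0
    · rw [v.ge_of_ne h0] at this
      rw [v.gt_of_ne (div_ne_zero h0 hη), v.r_div h0 hη, hηr]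
      linarith)
  obtain ⟨F2, hF2, hF2'⟩ := exists_model_unit v Iᶜ (fun j => η / (ι (b j) - ι (b i0))) (by
    intro j hj
    obtain ⟨h0, hle⟩ := ann.outside j (Finset.mem_compl.1 hj)
    rw [v.gt_of_ne (div_ne_zero hη h0), v.r_div hη h0, hηr]
    linarith)
  -- the substituted coefficient
  have hsub : C ((η / s ^ 2) ^ 2) * substHom ι (ι (b i0)) η (P 2) =
      - C B * (C ((η / s ^ 2) ^ 2) * ∑ i, (C (δ i : Ω) + C (c i) * (C (β i0 - β i) + C η * X)) *
      ∏ j ∈ Finset.univ.erase i, (C (β i0 - β j) + C η * X) ^ 2) := by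
    have h1 : substHom ι (ι (b i0)) η (P 2) = - C B *
        ∑ i, (C (δ i : Ω) + C (c i) * (C (β i0 - β i) + C η * X)) *
      ∏ j ∈ Finset.univ.erase i, (C (β i0 - β j) + C η * X) ^ 2 := by
      rw [substHom_apply, hP2, mul_comp, neg_comp, C_comp, Polynomial.sum_comp]
      congr 1
      apply Finset.sum_congr rfl
      intro i _
      rw [mul_comp, add_comp, mul_comp, C_comp, C_comp, sub_comp, X_comp, C_comp,
        Polynomial.prod_comp]
      have e1 : ∀ j, (C (ι (b i0)) + C η * X - C (ι (b j)) : Polynomial Ω) =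
          C (β i0 - β j) + C η * X := by
        intro j
        rw [C_sub]; ring
      rw [e1]
      congr 1
      apply Finset.prod_congr rfl
      intro j _
      rw [pow_comp, sub_comp, X_comp, C_comp, e1]
    rw [h1]
    ring
  have hsplit := split_identity β c (β i0) (fun i => (δ i : Ω)) η I e hd hη
    (fun j hj => (ann.outside j hj).1) (s ^ 2) (by rw [hs2]; rfl)
  rw [hsplit] at hsub
  set S1 := innerS c (fun i => (δ i : Ω)) η (fun i => (β i - β i0) / η) I with hS1
  set S2 := outerS β c (β i0) (fun i => (δ i : Ω)) η (∏ j ∈ Iᶜ, (β i0 - β j)) I with hS2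
  have hF1e : (∏ i ∈ I, (X - C ((β i - β i0) / η))) = F1.map v.V.subtype := hF1.symm
  have hF2e : (∏ j ∈ Iᶜ, (1 - C (η / (β j - β i0)) * X)) = F2.map v.V.subtype := hF2.symm
  rw [hF1e, hF2e] at hsub
  set Wp := (F2.map v.V.subtype) ^ 2 * S1 + (F1.map v.V.subtype) ^ 2 * S2 with hWp
  have hcoefW : ∀ k, v.ge 0 (Wp.coeff k) := by
    intro k
    have h1 : v.ge 0 ((C ((η / s ^ 2) ^ 2) * substHom ι (ι (b i0)) η (P 2)).coeff k) := by
      rw [coeff_C_mul, substHom_coeff]
      rcases hint k with h | h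
      · rw [h]; simpa using v.ge_zero 0
      · by_cases h0 : tco ι (ι (b i0)) (P 2) k = 0
        · rw [h0]; simpa using v.ge_zero 0
        · right
          have e1 : η / s ^ 2 ≠ 0 := div_ne_zero hη hs2'
          rw [v.r_mul (pow_ne_zero _ e1) (mul_ne_zero h0 (pow_ne_zero _ hη)),
            v.r_mul h0 (pow_ne_zero _ hη), v.r_pow e1, v.r_div hη hs2', v.r_pow hs, v.r_pow hη,
            hηr, hsr]
          refine le_of_le_of_eq h ?_
          unfold cval
          push_cast
          ring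
    rw [hsub, neg_mul, coeff_neg, coeff_C_mul] at h1
    have h2 := v.ge_rat_mul (q := (-1 : ℚ) / ((r + 1).choose 3 : ℕ)) h1
    have h3 : (((-1 : ℚ) / ((r + 1).choose 3 : ℕ) : ℚ) : Ω) * (-(B * Wp.coeff k)) = Wp.coeff k := by
      have hBO : B ≠ 0 := by rw [hB]; exact_mod_cast hBne
      push_cast
      rw [← hB]
      field_simp
    rwa [h3] at h2
  obtain ⟨hA1, hA2, hA3⟩ := innerS_coeffs c (fun i => (δ i : Ω)) η (fun i => (β i - β i0) / η) I e hd
  obtain ⟨hp1, hp2, hp3⟩ := pf_lemma v I.card F1 F2 hF1' hF2' S1 S2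
    (by intro k hk; rw [hd] at hk; exact hA1 k hk) hcoefW
  have hηC : v.ge 0 (η * ∑ i ∈ I, c i) := by
    rw [← hA2]; exact hp1 _
  refine ⟨Wp.coeff (2 * e), hcoefW _, ?_, ?_, ?_⟩
  · have h4 := hp3 (2 * e) (by omega)
    rw [← hWp] at h4
    have h5 : ∑ i ∈ I, ((δ i : Ω) + c i * (ι (b i) - ι (b i0))) =
        S1.coeff (2 * e) + 2 * (∑ j ∈ I, (β j - β i0) / η) * (η * ∑ i ∈ I, c i) := by
      rw [hS1, hA3]
      have : ∀ i ∈ I, ((δ i : Ω) + c i * (η * ((β i - β i0) / η))) =
          ((δ i : Ω) + c i * (ι (b i) - ι (b i0))) := by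
        intro i _
        rw [mul_div_cancel₀ _ hη]
      rw [Finset.sum_congr rfl this]
      ring
    have hW : v.gt 0 (∑ j ∈ I, (β j - β i0) / η) := by
      apply v.gt_sum
      intro i hi
      have := ann.inside i hi
      by_cases h0 : ι (b i) - ι (b i0) = 0
      · simp only [hβ]
        rw [h0, zero_div]; exact v.gt_zero 0
      · rw [v.ge_of_ne h0] at this
        simp only [hβ]
        rw [v.gt_of_ne (div_ne_zero h0 hη), v.r_div h0 hη, hηr]
        linarith
    have h6 : v.gt 0 (2 * (∑ j ∈ I, (β j - β i0) / η) * (η * ∑ i ∈ I, c i)) := by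
      have h7 := v.gt_rat_mul (q := 2) hW
      have h8 := h7.mul_ge hηC
      rw [add_zero] at h8
      simpa using h8
    rw [h5]
    have h9 : S1.coeff (2 * e) + 2 * (∑ j ∈ I, (β j - β i0) / η) * (η * ∑ i ∈ I, c i) -
        Wp.coeff (2 * e) = -(Wp.coeff (2 * e) - S1.coeff (2 * e)) +
          2 * (∑ j ∈ I, (β j - β i0) / η) * (η * ∑ i ∈ I, c i) := by ring
    rw [h9]
    exact h4.neg.add h6
  · rw [hsub, neg_mul, coeff_neg, coeff_C_mul, neg_mul]
  · have h10 : v.ge (0 + -ρ) (η⁻¹ * (η * ∑ i ∈ I, c i)) := by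
      rw [add_comm]
      refine QVal.ge.mul ?_ hηC
      right
      rw [v.r_inv hη, hηr]
    rw [zero_add, ← mul_assoc, inv_mul_cancel₀ hη, one_mul] at h10
    exact h10

/-- Node theorem: the residue of the cluster constant is rational and at least `-1/4`. -/
theorem node (c : Fin n → Ω) (δ : Fin n → ℚ) (hr : 2 ≤ r) (hP2 : SecondCoeff ι b r P c δ)
    (hP1 : P 1 = 0) (hQ1 : Q 1 = 0)
    (hR : ∀ᶠ p : ℕ in atTop, p.Prime → ∀ i < r,
      NilCoef p (qnum r 1 (fpoly b) (Gdat r b P Q) (p * r) i))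
    {i0 : Fin n} {I : Finset (Fin n)} {lo hi : ℚ}
    (ann : Ann v (fun i => ι (b i)) i0 I lo hi) (ρ : ℚ) (hρ1 : lo < ρ) (hρ2 : ρ < hi) :
    v.ge (-ρ) (∑ i ∈ I, c i) ∧
    ∃ q : ℚ, v.gt 0 (∑ i ∈ I, ((δ i : Ω) + c i * (ι (b i) - ι (b i0))) - (q : Ω)) ∧ -1 / 4 ≤ q := by
  classical
  have hcardpos : 0 < I.card := Finset.card_pos.2 ⟨i0, ann.mem0⟩
  obtain ⟨e, hd⟩ : ∃ e, I.card = e + 1 := ⟨I.card - 1, by omega⟩
  obtain ⟨η, s, fV, hη, hs, hηr, hs2, hsr, hf, hfX⟩ := exists_scaling ι v b ann ρ hρ1 hρ2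
  have hint := fun ρ' (h1 : lo < ρ') (h2 : ρ' < hi) =>
    integrality ι v b r P Q hR ann ρ' h1 h2
  obtain ⟨T, hT1, hT2, hT3, hT4⟩ := node_pre ι v b r P c δ hr hP2 ann ρ hρ1 hρ2
    (fun m => ((hint ρ hρ1 hρ2) 2 (by norm_num) hr m).1) η s hη hs hηr hs2 hsr e hd
  refine ⟨hT4, ?_⟩
  set c0 := v.r (outerC (fun i => ι (b i)) i0 I) with hc0
  have hs2' : s ^ 2 ≠ 0 := pow_ne_zero _ hs
  set ω : Ω := η / s ^ 2 with hω
  have hω0 : ω ≠ 0 := div_ne_zero hη hs2'
  have hωr : v.r ω = ρ - (I.card * ρ + c0) := by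
    rw [hω, v.r_div hη hs2', hηr, v.r_pow hs, hsr]
    push_cast
    ring
  have hωs : ω * s ^ 2 = 1 * η := by rw [hω]; field_simp
  have h2ne : (2 : Ω) ≠ 0 := by norm_num
  have hr2 : v.r (2 : Ω) = 0 := by
    have := v.nat' 2 (by norm_num)
    simpa using this
  -- coefficient formulas
  have hre : ∀ i < r, ∀ k, (C (ω ^ (r - i)) *
      substHom ι (ι (b i0)) η (Gdat r b P Q i).re).coeff k =
      ω ^ (r - i) * (2 ^ (r - i) * (tco ι (ι (b i0)) (P (r - i)) k * η ^ k)) := by
    intro i _ k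
    have e : substHom ι (ι (b i0)) η (Gdat r b P Q i).re =
        C (2 ^ (r - i)) * substHom ι (ι (b i0)) η (P (r - i)) :=
      substHom_two_pow ι (ι (b i0)) η (r - i) _
    rw [e, coeff_C_mul, coeff_C_mul, substHom_coeff]
  have him : ∀ i < r, ∀ k, (C (ω ^ (r - i)) *
      (C s * substHom ι (ι (b i0)) η (Gdat r b P Q i).im)).coeff k =
      ω ^ (r - i) * (s * (2 ^ (r - i) * (tco ι (ι (b i0)) (Q (r - i)) k * η ^ k))) := by
    intro i _ k
    have e : substHom ι (ι (b i0)) η (Gdat r b P Q i).im =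
        C (2 ^ (r - i)) * substHom ι (ι (b i0)) η (Q (r - i)) :=
      substHom_two_pow ι (ι (b i0)) η (r - i) _
    rw [e, coeff_C_mul, coeff_C_mul, coeff_C_mul, substHom_coeff]
  -- valuations
  have hvre : ∀ i < r, ∀ k, tco ι (ι (b i0)) (P (r - i)) k ≠ 0 →
      v.r (ω ^ (r - i) * (2 ^ (r - i) * (tco ι (ι (b i0)) (P (r - i)) k * η ^ k))) =
      cval 0 c0 I.card (r - i) k (v.r (tco ι (ι (b i0)) (P (r - i)) k)) ρ := by
    intro i _ k h0
    rw [v.r_mul (pow_ne_zero _ hω0) (mul_ne_zero (pow_ne_zero _ h2ne)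
      (mul_ne_zero h0 (pow_ne_zero _ hη))), v.r_mul (pow_ne_zero _ h2ne)
      (mul_ne_zero h0 (pow_ne_zero _ hη)), v.r_mul h0 (pow_ne_zero _ hη), v.r_pow hω0,
      v.r_pow h2ne, v.r_pow hη, hωr, hr2, hηr]
    unfold cval
    ring
  have hvim : ∀ i < r, ∀ k, tco ι (ι (b i0)) (Q (r - i)) k ≠ 0 →
      v.r (ω ^ (r - i) * (s * (2 ^ (r - i) * (tco ι (ι (b i0)) (Q (r - i)) k * η ^ k)))) =
      cval (1 / 2) c0 I.card (r - i) k (v.r (tco ι (ι (b i0)) (Q (r - i)) k)) ρ := by
    intro i _ k h0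
    rw [v.r_mul (pow_ne_zero _ hω0) (mul_ne_zero hs (mul_ne_zero (pow_ne_zero _ h2ne)
      (mul_ne_zero h0 (pow_ne_zero _ hη)))), v.r_mul hs (mul_ne_zero (pow_ne_zero _ h2ne)
      (mul_ne_zero h0 (pow_ne_zero _ hη))), v.r_mul (pow_ne_zero _ h2ne)
      (mul_ne_zero h0 (pow_ne_zero _ hη)), v.r_mul h0 (pow_ne_zero _ hη), v.r_pow hω0,
      v.r_pow h2ne, v.r_pow hη, hωr, hr2, hηr, hsr]
    unfold cval
    ring
  -- integrality and vanishing
  have hgere : ∀ i < r, ∀ k, v.ge 0 ((C (ω ^ (r - i)) *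
      substHom ι (ι (b i0)) η (Gdat r b P Q i).re).coeff k) := by
    intro i hi k
    rw [hre i hi k]
    by_cases h0 : tco ι (ι (b i0)) (P (r - i)) k = 0
    · rw [h0]; simpa using v.ge_zero 0
    · right
      rw [hvre i hi k h0]
      exact (((hint ρ hρ1 hρ2) (r - i) (by omega) (by omega) k).1).resolve_left h0
  have hgeim : ∀ i < r, ∀ k, v.ge 0 ((C (ω ^ (r - i)) *
      (C s * substHom ι (ι (b i0)) η (Gdat r b P Q i).im)).coeff k) := by
    intro i hi k
    rw [him i hi k]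
    by_cases h0 : tco ι (ι (b i0)) (Q (r - i)) k = 0
    · rw [h0]; simpa using v.ge_zero 0
    · right
      rw [hvim i hi k h0]
      exact (((hint ρ hρ1 hρ2) (r - i) (by omega) (by omega) k).2).resolve_left h0
  have hgtre : ∀ i < r, ∀ k, k ≠ e * (r - i) → v.gt 0 ((C (ω ^ (r - i)) *
      substHom ι (ι (b i0)) η (Gdat r b P Q i).re).coeff k) := by
    intro i hir k hk
    rw [hre i hir k]
    by_cases h0 : tco ι (ι (b i0)) (P (r - i)) k = 0
    · rw [h0]; simpa using v.gt_zero 0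
    · right
      rw [hvre i hir k h0]
      apply cval_pos 0 c0 I.card (r - i) k _ lo hi _ _ ρ hρ1 hρ2
      · intro ρ' h1 h2
        exact (((hint ρ' h1 h2) (r - i) (by omega) (by omega) k).1).resolve_left h0
      · intro h
        apply hk
        rw [hd] at h
        push_cast at h
        have h' : (k : ℚ) = ((e * (r - i) : ℕ) : ℚ) := by
          push_cast
          linear_combination h
        exact_mod_cast h'
  have hgtim : ∀ i < r, ∀ k, 2 * k + (e + 1) ≠ 2 * e * (r - i) → v.gt 0 ((C (ω ^ (r - i)) *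
      (C s * substHom ι (ι (b i0)) η (Gdat r b P Q i).im)).coeff k) := by
    intro i hir k hk
    rw [him i hir k]
    by_cases h0 : tco ι (ι (b i0)) (Q (r - i)) k = 0
    · rw [h0]; simpa using v.gt_zero 0
    · right
      rw [hvim i hir k h0]
      apply cval_pos (1 / 2) c0 I.card (r - i) k _ lo hi _ _ ρ hρ1 hρ2
      · intro ρ' h1 h2
        exact (((hint ρ' h1 h2) (r - i) (by omega) (by omega) k).2).resolve_left h0
      · intro h
        apply hk
        rw [hd] at h
        push_cast at h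
        have h' : ((2 * k + (e + 1) : ℕ) : ℚ) = ((2 * e * (r - i) : ℕ) : ℚ) := by
          push_cast
          linear_combination 2 * h
        exact_mod_cast h'
  have hVre : ∀ i < r, ∃ F : v.V[X], F.map v.V.subtype = C (ω ^ (r - i)) *
      substHom ι (ι (b i0)) η (Gdat r b P Q i).re :=
    fun i hi => exists_lift_V v _ (hgere i hi)
  have hVim : ∀ i < r, ∃ F : v.V[X], F.map v.V.subtype = C (ω ^ (r - i)) *
      (C s * substHom ι (ι (b i0)) η (Gdat r b P Q i).im) :=
    fun i hi => exists_lift_V v _ (hgeim i hi)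
  choose! gre hgre using hVre
  choose! gim hgim using hVim
  have hcz := charZero_residue v
  let K' := AlgebraicClosure (IsLocalRing.ResidueField v.V)
  have hczK : CharZero K' := charZero_of_injective_algebraMap
    (algebraMap (IsLocalRing.ResidueField v.V) K').injective
  let π : v.V →+* K' := (algebraMap (IsLocalRing.ResidueField v.V) K').comp
    (IsLocalRing.residue v.V)
  have hπ : ∀ x : v.V, π x = 0 ↔ v.gt 0 (x : Ω) := by
    intro x
    rw [← v.residue_eq_zero_iff]
    simp only [π, RingHom.comp_apply]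
    rw [map_eq_zero_iff _ (algebraMap (IsLocalRing.ResidueField v.V) K').injective]
  have hfX' : fV.map π = X ^ (e + 1) := by
    simp only [π]
    rw [← Polynomial.map_map, hfX, hd]
    simp
  -- the shape of the reductions
  have hA : ∀ i < r, (gre i).map π = C (((gre i).map π).coeff (e * (r - i))) * X ^ (e * (r - i)) := by
    intro i hi
    ext k
    rw [coeff_C_mul, coeff_X_pow]
    by_cases hk : k = e * (r - i)
    · rw [hk]; simp
    · rw [if_neg hk, mul_zero, coeff_map, hπ, model_coeff v (hgre i hi)]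
      exact hgtre i hi k hk
  have hBex : ∀ i < r, ∃ bb : K', expand K' 2 ((gim i).map π) * X ^ (e + 1) =
      C bb * X ^ (2 * e * (r - i)) := by
    intro i hi
    by_cases hex : ∃ k, 2 * k + (e + 1) = 2 * e * (r - i)
    · obtain ⟨k0, hk0⟩ := hex
      refine ⟨((gim i).map π).coeff k0, ?_⟩
      have h1 : (gim i).map π = C (((gim i).map π).coeff k0) * X ^ k0 := by
        ext k
        rw [coeff_C_mul, coeff_X_pow]
        by_cases hk : k = k0
        · rw [hk]; simp
        · rw [if_neg hk, mul_zero, coeff_map, hπ, model_coeff v (hgim i hi)]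
          exact hgtim i hi k (by omega)
      conv_lhs => rw [h1]
      rw [map_mul, expand_C, map_pow, expand_X, mul_assoc, ← pow_mul, ← pow_add, hk0]
    · refine ⟨0, ?_⟩
      have h1 : (gim i).map π = 0 := by
        ext k
        rw [coeff_map, coeff_zero, hπ, model_coeff v (hgim i hi)]
        exact hgtim i hi k (fun h => hex ⟨k, h⟩)
      rw [h1]; simp
  choose! bb hbb using hBex
  let aa : ℕ → K' := fun i => ((gre i).map π).coeff (e * (r - i))
  have hτV : IsLocalRing.residue v.V 1 = 1 := map_one _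
  have hbound : ∀ ε : ℤ, ε ^ 2 = 1 → ∃ q : ℚ, aa (r - 2) + (ε : K') * bb (r - 2) = (q : K') ∧
      q ≤ ((r + 1).choose 3 : ℕ) := by
    intro ε hε
    have hγ : ∀ i < r, expand K' 2 ((gre i).map π) + expand K' 2 ((gim i).map π) *
        (C (ε : K') * X ^ (e + 1)) =
        C ((fun i => aa i + (ε : K') * bb i) i) * X ^ ((2 * e) * (r - i)) := by
      intro i hi
      have h1 : expand K' 2 ((gre i).map π) = C (aa i) * X ^ (2 * e * (r - i)) := by
        rw [hA i hi, map_mul, expand_C, map_pow, expand_X, ← pow_mul]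
        congr 2
        ring
      have h2 := hbb i hi
      rw [h1, C_add, C_mul]
      linear_combination C (ε : K') * h2
    refine vieta_bound r hr (fun i => aa i + (ε : K') * bb i) ?_ ?_
    · have hr1 : r - (r - 1) = 1 := by omega
      have hi1 : r - 1 < r := by omega
      have h1 : (gre (r - 1)).map π = 0 := by
        ext k
        rw [coeff_map, coeff_zero, hπ, model_coeff v (hgre (r - 1) hi1), hre (r - 1) hi1 k, hr1,
          hP1]
        simp [tco, QVal.gt]
      have h2 : (gim (r - 1)).map π = 0 := by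
        ext k
        rw [coeff_map, coeff_zero, hπ, model_coeff v (hgim (r - 1) hi1), him (r - 1) hi1 k, hr1,
          hQ1]
        simp [tco, QVal.gt]
      have h3 : aa (r - 1) = 0 := by
        change ((gre (r - 1)).map π).coeff _ = 0
        rw [h1, coeff_zero]
      have h4 := hbb (r - 1) hi1
      rw [h2, map_zero, zero_mul] at h4
      have h5 : bb (r - 1) = 0 := by
        have := (mul_eq_zero.1 h4.symm).resolve_right (pow_ne_zero _ X_ne_zero)
        exact C_eq_zero.1 this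
      simp [h3, h5]
    · intro x hx
      exact core_exponent ι v.V.subtype Subtype.val_injective π r (by omega) (fpoly b)
        (Gdat r b P Q) 1 fV gre gim (ι (b i0)) η s ω hη hω0 hf (by simpa using hωs) hgre hgim hR e
        (map_one π) hfX' ε hε (fun i => aa i + (ε : K') * bb i) hγ x hx
  obtain ⟨q1, hq1, hq1'⟩ := hbound 1 (by norm_num)
  obtain ⟨q2, hq2, hq2'⟩ := hbound (-1) (by norm_num)
  set B := (r + 1).choose 3 with hB
  have hBne : B ≠ 0 := (Nat.choose_pos (by omega)).ne'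
  have hBQ : (0 : ℚ) < B := by exact_mod_cast Nat.pos_of_ne_zero hBne
  -- compute `aa (r-2)`
  have hTV : T ∈ v.V := v.ge_zero_iff.1 hT1
  have haa : aa (r - 2) = - (4 * (B : K')) * π ⟨T, hTV⟩ := by
    have hi2 : r - 2 < r := by omega
    have hr2' : r - (r - 2) = 2 := by omega
    have h1 : (gre (r - 2)).coeff (e * 2) = - (((4 * B : ℕ)) : v.V) * ⟨T, hTV⟩ := by
      apply Subtype.ext
      rw [model_coeff v (hgre (r - 2) hi2)]
      have h2 : substHom ι (ι (b i0)) η (Gdat r b P Q (r - 2)).re =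
          C (2 ^ 2) * substHom ι (ι (b i0)) η (P 2) := by
        have := substHom_two_pow ι (ι (b i0)) η (r - (r - 2)) (P (r - (r - 2)))
        rw [hr2'] at this
        simp only [Gdat, hr2']
        exact this
      rw [h2, hr2']
      have h3 : (C (ω ^ 2) * (C (2 ^ 2) * substHom ι (ι (b i0)) η (P 2)) : Polynomial Ω) =
          C (2 ^ 2) * (C (ω ^ 2) * substHom ι (ι (b i0)) η (P 2)) := by ring
      have h4 : (((- (((4 * B : ℕ)) : v.V) * ⟨T, hTV⟩ : v.V)) : Ω) = - (((4 * B : ℕ)) : Ω) * T := by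
        have h5 : v.V.subtype (- (((4 * B : ℕ)) : v.V) * ⟨T, hTV⟩) = - (((4 * B : ℕ)) : Ω) * T := by
          rw [map_mul, map_neg, map_natCast]
          rfl
        exact h5
      rw [h3, coeff_C_mul, mul_comm e 2, hT3, h4]
      push_cast
      ring
    simp only [aa]
    rw [hr2', coeff_map, h1, map_mul, map_neg, map_natCast]
    push_cast
    ring
  have hπT : π ⟨T, hTV⟩ = (((-(q1 + q2) / (8 * B) : ℚ)) : K') := by
    have hBK : (B : K') ≠ 0 := by exact_mod_cast hBne
    have h1 : - (8 * (B : K')) * π ⟨T, hTV⟩ = (q1 : K') + (q2 : K') := by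
      rw [← hq1, ← hq2, haa]
      push_cast
      ring
    push_cast
    rw [eq_div_iff (by simpa using hBK)]
    linear_combination -h1
  refine ⟨-(q1 + q2) / (8 * B), ?_, ?_⟩
  · have hqV : (((-(q1 + q2) / (8 * B) : ℚ)) : Ω) ∈ v.V := v.ge_zero_iff.1 (v.ge_rat _)
    have h1 : v.gt 0 (T - ((-(q1 + q2) / (8 * B) : ℚ) : Ω)) := by
      have h2 : π (⟨T, hTV⟩ - ⟨((-(q1 + q2) / (8 * B) : ℚ) : Ω), hqV⟩) = 0 := by
        rw [map_sub, hπT, sub_eq_zero]
        -- rational constants are preserved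
        set q : ℚ := -(q1 + q2) / (8 * B) with hq
        have h3 : (q.den : K') * π ⟨(q : Ω), hqV⟩ = (q.num : K') := by
          rw [← map_natCast π, ← map_mul, ← map_intCast π]
          congr 1
          apply Subtype.ext
          push_cast
          have h4 : (q.den : Ω) ≠ 0 := by exact_mod_cast q.den_ne_zero
          have h5 : (q : Ω) = (q.num : Ω) / (q.den : Ω) := Rat.cast_def q
          change (q.den : Ω) * (q : Ω) = _
          rw [h5, mul_div_cancel₀ _ h4]
        have h4 : (q.den : K') ≠ 0 := by exact_mod_cast q.den_ne_zero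
        have h5 : (q : K') = (q.num : K') / (q.den : K') := Rat.cast_def q
        rw [h5, div_eq_iff h4, ← h3]
        ring
      exact (hπ _).1 h2
    have h6 := hT2.add h1
    simpa using h6
  · rw [div_le_div_iff₀ (by norm_num) (by positivity)]
    push_cast at hq1' hq2'
    nlinarith

end

end Helper12.W
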