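import Pool.Agent.Helper12.Local

namespace Helper12.W

open Helper12

section

variable {Ω : Type*} [Field Ω] (v : QVal Ω) {n : ℕ} (β c : Fin n → Ω)

variable [CharZero Ω]

/-- the comparison function -/
def psi (δ : Fin n → ℚ) (a : Fin n → Fin n → ℚ) (I : Finset (Fin n)) : ℚ :=
  ∑ i ∈ I, δ i - ∑ i ∈ I, ∑ j ∈ I.erase i, a i j

theorem local_int (hβ : Function.Injective β)
    (hint : ∀ i j, i ≠ j → ∃ z : ℤ, v.r (β i - β j) = z) (hn : 0 < n)
    (δ : Fin n → ℚ) (δ' : ℚ) (a : Fin n → Fin n → ℚ)
    (ha : ∑ i, ∑ j ∈ Finset.univ.erase i, a i j = ∑ i, δ i - δ')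
    (hδ : ∀ I : Finset (Fin n), 2 ≤ I.card → I.card ≤ n - 1 → psi δ a I < -1 / 4)
    (hc0 : ∑ i, c i = 0)
    (hc1 : ∑ i, c i * β i = (δ' : Ω) - ∑ i, (δ i : Ω))
    (hA : ∀ (t : ℤ) (i : Fin n), v.ge (-((t : ℚ) - 1)) (∑ j ∈ cl v β t i, c j))
    (hB : ∀ (t : ℤ) (i : Fin n), ∃ q : ℚ,
      v.gt 0 (∑ j ∈ cl v β t i, ((δ j : Ω) + c j * (β j - β i)) - (q : Ω)) ∧ -1 / 4 ≤ q)
    (θ : Ω →+ Ω) (hθ : ∀ x : Ω, x ≠ 0 → v.gt (v.r x) (θ x - ((v.r x : ℚ) : Ω) * x)) :
    ∃ ξ : ℚ, 0 ≤ ξ ∧
      v.gt 0 (∑ i, c i * θ (β i) +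
        ∑ i, ∑ j ∈ Finset.univ.erase i, (a i j : Ω) * (θ (β i - β j) / (β i - β j)) -
          (ξ : Ω)) ∧
      (∀ i j l, i ≠ j → l ≠ i → v.r (β i - β l) < v.r (β i - β j) → 0 < ξ) := by
  classical
  have hnQ : (0 : ℚ) < n := by exact_mod_cast hn
  have hnΩ : (n : Ω) ≠ 0 := by exact_mod_cast hn.ne'
  -- bounds for the levels
  obtain ⟨m, hm⟩ : ∃ m : ℤ, ∀ i j, i ≠ j → (m : ℚ) ≤ v.r (β i - β j) := by
    obtain ⟨m, hm⟩ := (Set.finite_range (fun x : Fin n × Fin n => ⌊v.r (β x.1 - β x.2)⌋)).bddBelow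
    refine ⟨m, fun i j hij => ?_⟩
    have h1 : m ≤ ⌊v.r (β i - β j)⌋ := hm ⟨(i, j), rfl⟩
    exact le_trans (by exact_mod_cast h1) (Int.floor_le _)
  obtain ⟨M, hM⟩ : ∃ M : ℤ, ∀ i j, i ≠ j → v.r (β i - β j) < M := by
    obtain ⟨M, hM⟩ := (Set.finite_range (fun x : Fin n × Fin n => ⌊v.r (β x.1 - β x.2)⌋)).bddAbove
    refine ⟨M + 1, fun i j hij => ?_⟩
    have h1 : ⌊v.r (β i - β j)⌋ ≤ M := hM ⟨(i, j), rfl⟩
    have h2 := Int.lt_floor_add_one (v.r (β i - β j))
    push_cast
    have h3 : ((⌊v.r (β i - β j)⌋ : ℤ) : ℚ) ≤ M := by exact_mod_cast h1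
    linarith
  obtain ⟨K, hK⟩ : ∃ K : ℕ, M ≤ m + K := ⟨(M - m).toNat, by
    have := Int.self_le_toNat (M - m); omega⟩
  have hKM : ∀ i j, i ≠ j → v.r (β i - β j) < (m : ℚ) + K := by
    intro i j hij
    have h1 := hM i j hij
    have h2 : (M : ℚ) ≤ (m : ℚ) + K := by exact_mod_cast hK
    linarith
  have hne : ∀ i j, i ≠ j → β i - β j ≠ 0 := fun i j hij => sub_ne_zero.2 (fun h => hij (hβ h))
  -- top and bottom clusters
  have htop : ∀ i, cl v β ((m : ℚ) + K) i = {i} := by
    intro i
    ext j
    rw [mem_cl, Finset.mem_singleton]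
    constructor
    · intro h
      by_contra hji
      rw [v.ge_of_ne (hne j i hji)] at h
      exact absurd (hKM j i hji) (not_lt.2 h)
    · rintro rfl; rw [sub_self]; exact v.ge_zero _
  have hbot : ∀ i, cl v β (m : ℚ) i = Finset.univ := by
    intro i
    ext j
    rw [mem_cl]
    simp only [Finset.mem_univ, iff_true]
    by_cases hji : j = i
    · subst hji; rw [sub_self]; exact v.ge_zero _
    · right; exact hm j i hji
  -- levels
  let lev : ℕ → ℚ := fun s => (m : ℚ) + s
  have hlev : ∀ s, lev s = (((m + s : ℤ)) : ℚ) := by intro s; simp [lev]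
  let D : ℕ → Ω := fun s => ∑ i, c i * (β i - mean v β (lev s) i)
  have hDK : D K = 0 := by
    apply Finset.sum_eq_zero
    intro i _
    have : mean v β (lev K) i = β i := by
      simp only [mean, lev, htop i]
      simp
    rw [this, sub_self, mul_zero]
  have hD0 : D 0 = (δ' : Ω) - ∑ i, (δ i : Ω) := by
    have h1 : ∀ i, mean v β (lev 0) i = (n : Ω)⁻¹ * ∑ j, β j := by
      intro i
      have : lev 0 = (m : ℚ) := by simp [lev]
      rw [mean, this, hbot i]
      simp
    simp only [D]
    rw [Finset.sum_congr rfl (fun i _ => by rw [h1 i, mul_sub]), Finset.sum_sub_distrib,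
      ← Finset.sum_mul, hc0, zero_mul, sub_zero, hc1]
  -- the increments
  let x : ℕ → Fin n → Ω := fun s i => mean v β (lev (s + 1)) i - mean v β (lev s) i
  have hlevlt : ∀ s, lev s ≤ lev (s + 1) := by intro s; simp [lev]
  have hxconst : ∀ s i j, j ∈ cl v β (lev (s + 1)) i → x s j = x s i := by
    intro s i j hj
    simp only [x]
    rw [mean_eq_of_mem v β hj, mean_eq_of_mem v β (cl_mono v β (hlevlt s) i hj)]
  have hxge : ∀ s i, v.ge (lev s) (x s i) := by
    intro s i
    have h1 : x s i = (mean v β (lev (s + 1)) i - β i) - (mean v β (lev s) i - β i) := by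
      simp only [x]; ring
    rw [h1]
    exact ((mean_sub v β (lev (s + 1)) i).mono (hlevlt s)).sub (mean_sub v β (lev s) i)
  have hxsum : ∀ i, ∑ s ∈ Finset.range K, x s i = β i - mean v β (lev 0) i := by
    intro i
    simp only [x]
    rw [Finset.sum_range_sub (fun s => mean v β (lev s) i)]
    congr 1
    simp only [mean, lev, htop i]
    simp
  have hxD : ∀ s, ∑ i, c i * x s i = D s - D (s + 1) := by
    intro s
    simp only [D, x]
    rw [← Finset.sum_sub_distrib]
    apply Finset.sum_congr rfl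
    intro i _
    ring
  -- first main congruence
  have hstep : ∀ s, v.gt 0 (∑ i, c i * θ (x s i) - ((m : Ω) + s) * (D s - D (s + 1))) := by
    intro s
    rw [← hxD s, Finset.mul_sum, ← Finset.sum_sub_distrib]
    rw [sum_cl_avg v β (lev (s + 1))]
    apply v.gt_sum
    intro i _
    have h1 : ∑ j ∈ cl v β (lev (s + 1)) i, (c j * θ (x s j) - ((m : Ω) + s) * (c j * x s j)) =
        (∑ j ∈ cl v β (lev (s + 1)) i, c j) * (θ (x s i) - ((lev s : ℚ) : Ω) * x s i) := by
      rw [Finset.sum_mul]
      apply Finset.sum_congr rfl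
      intro j hj
      rw [hxconst s i j hj]
      simp only [lev]
      push_cast
      ring
    rw [h1]
    have h2 : v.ge (- lev s) (∑ j ∈ cl v β (lev (s + 1)) i, c j) := by
      have := hA (m + (s + 1 : ℕ)) i
      have e : ((m + (s + 1 : ℕ) : ℤ) : ℚ) = lev (s + 1) := by rw [hlev]
      rw [e] at this
      have e2 : -(lev (s + 1) - 1) = - lev s := by simp only [lev]; push_cast; ring
      rwa [e2] at this
    have h3 : v.gt (lev s) (θ (x s i) - ((lev s : ℚ) : Ω) * x s i) := by
      by_cases hx0 : x s i = 0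
      · rw [hx0, map_zero, mul_zero, sub_zero]; exact v.gt_zero _
      · have h4 := hθ (x s i) hx0
        have h5 := hxge s i
        rw [v.ge_of_ne hx0] at h5
        rcases h5.eq_or_lt with h6 | h6
        · rw [← h6] at h4
          exact h4
        · have h7 : v.gt (lev s) (θ (x s i) - ((v.r (x s i) : ℚ) : Ω) * x s i) := h4.mono h5
          have h8 : v.gt (lev s) (((v.r (x s i) - lev s : ℚ) : Ω) * x s i) := by
            apply v.gt_rat_mul
            rw [v.gt_of_ne hx0]
            exact h6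
          have h9 := h7.add h8
          have e : θ (x s i) - ((v.r (x s i) : ℚ) : Ω) * x s i +
              ((v.r (x s i) - lev s : ℚ) : Ω) * x s i =
              θ (x s i) - ((lev s : ℚ) : Ω) * x s i := by
            push_cast; ring
          rwa [e] at h9
    have h4 := h2.mul_gt h3
    rw [neg_add_cancel] at h4
    have h5 := v.gt_rat_mul (q := (((cl v β (lev (s + 1)) i).card : ℕ) : ℚ)⁻¹) h4
    simpa using h5
  have hfirst : v.gt 0 (∑ i, c i * θ (β i) -
      (((m : Ω) - 1) * D 0 + ∑ s ∈ Finset.range K, D s)) := by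
    have h1 : ∑ i, c i * θ (β i) = ∑ s ∈ Finset.range K, ∑ i, c i * θ (x s i) := by
      rw [Finset.sum_comm]
      have h2 : ∀ i, ∑ s ∈ Finset.range K, c i * θ (x s i) =
          c i * θ (β i) - c i * θ ((n : Ω)⁻¹ * ∑ j, β j) := by
        intro i
        rw [← Finset.mul_sum, ← map_sum, hxsum i, map_sub, mul_sub]
        congr 3
        have : lev 0 = (m : ℚ) := by simp [lev]
        rw [mean, this, hbot i]
        simp
      rw [Finset.sum_congr rfl (fun i _ => h2 i), Finset.sum_sub_distrib, ← Finset.sum_mul, hc0,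
        zero_mul, sub_zero]
    have h3 := abel_sum ((m : Ω)) D K
    rw [hDK, mul_zero, sub_zero] at h3
    rw [h1, ← h3, ← Finset.sum_sub_distrib]
    exact v.gt_sum _ _ _ (fun s _ => hstep s)
  -- second main congruence
  have hcount : ∀ i j, i ≠ j → v.r (β i - β j) =
      ((m : ℚ) - 1) + ∑ s ∈ Finset.range K, (if j ∈ cl v β (lev s) i then (1 : ℚ) else 0) := by
    intro i j hij
    obtain ⟨z, hz⟩ := hint i j hij
    have h1 : (m : ℚ) ≤ z := by rw [← hz]; exact hm i j hij
    have h2 : (z : ℚ) < m + K := by rw [← hz]; exact hKM i j hij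
    have h1' : m ≤ z := by exact_mod_cast h1
    have h2' : z < m + K := by exact_mod_cast h2
    obtain ⟨k, hk⟩ := Int.eq_ofNat_of_zero_le (sub_nonneg.2 h1')
    have hkK : k < K := by omega
    have h3 : ∀ s, (j ∈ cl v β (lev s) i) ↔ s < k + 1 := by
      intro s
      rw [mem_cl, v.ge_of_ne (hne j i hij.symm), v.r_sub_comm (fun h => hij (hβ h).symm), hz]
      simp only [lev]
      constructor
      · intro h
        have h4 : m + (s : ℤ) ≤ z := by exact_mod_cast h
        omega
      · intro h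
        have h4 : m + (s : ℤ) ≤ z := by omega
        exact_mod_cast h4
    have h4 : ∑ s ∈ Finset.range K, (if j ∈ cl v β (lev s) i then (1 : ℚ) else 0) = k + 1 := by
      rw [Finset.sum_congr rfl (fun s _ => by rw [if_congr (h3 s) rfl rfl] :
        ∀ s ∈ Finset.range K, (if j ∈ cl v β (lev s) i then (1 : ℚ) else 0) =
          if s < k + 1 then (1 : ℚ) else 0)]
      rw [← Finset.sum_filter]
      have : (Finset.range K).filter (fun s => s < k + 1) = Finset.range (k + 1) := by
        ext s; simp; omega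
      rw [this]
      simp
    rw [h4, hz]
    have : (z : ℚ) = m + k := by
      have : z = m + k := by omega
      exact_mod_cast this
    rw [this]; ring
  have hsecond : v.gt 0 (∑ i, ∑ j ∈ Finset.univ.erase i,
      (a i j : Ω) * (θ (β i - β j) / (β i - β j)) -
      ((((m : ℚ) - 1) * (∑ i, ∑ j ∈ Finset.univ.erase i, a i j) +
        ∑ s ∈ Finset.range K, ∑ i : Fin n, ∑ j ∈ (cl v β (lev s) i).erase i, a i j : ℚ) : Ω)) := by
    have h1 : (((m : ℚ) - 1) * (∑ i, ∑ j ∈ Finset.univ.erase i, a i j) +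
        ∑ s ∈ Finset.range K, ∑ i : Fin n, ∑ j ∈ (cl v β (lev s) i).erase i, a i j) =
        ∑ i, ∑ j ∈ Finset.univ.erase i, a i j * v.r (β i - β j) := by
      have h2 : ∀ i, ∑ j ∈ Finset.univ.erase i, a i j * v.r (β i - β j) =
          ((m : ℚ) - 1) * (∑ j ∈ Finset.univ.erase i, a i j) +
            ∑ s ∈ Finset.range K, ∑ j ∈ (cl v β (lev s) i).erase i, a i j := by
        intro i
        have h5 : ∀ j ∈ Finset.univ.erase i, a i j * v.r (β i - β j) =
            ((m : ℚ) - 1) * a i j +
              ∑ s ∈ Finset.range K, (if j ∈ cl v β (lev s) i then a i j else 0) := by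
          intro j hj
          rw [hcount i j (Finset.ne_of_mem_erase hj).symm, mul_add, Finset.mul_sum]
          congr 1
          · ring
          · refine Finset.sum_congr rfl fun s _ => ?_
            split_ifs
            · rw [mul_one]
            · rw [mul_zero]
        rw [Finset.sum_congr rfl h5, Finset.sum_add_distrib, ← Finset.mul_sum, Finset.sum_comm]
        congr 1
        apply Finset.sum_congr rfl
        intro s _
        rw [← Finset.sum_filter]
        have h3 : (Finset.univ.erase i).filter (fun j => j ∈ cl v β (lev s) i) =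
            (cl v β (lev s) i).erase i := by
          ext j; simp
        rw [h3]
      rw [Finset.sum_congr rfl (fun i _ => h2 i), Finset.sum_add_distrib, ← Finset.mul_sum,
        Finset.sum_comm]
    rw [h1]
    push_cast
    rw [← Finset.sum_sub_distrib]
    apply v.gt_sum
    intro i _
    rw [← Finset.sum_sub_distrib]
    apply v.gt_sum
    intro j hj
    have hij := (Finset.ne_of_mem_erase hj).symm
    have h2 := hne i j hij
    have h3 := hθ _ h2
    have h4 : v.ge (- v.r (β i - β j)) (β i - β j)⁻¹ := by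
      right; rw [v.r_inv h2]
    have h5 := h4.mul_gt h3
    rw [neg_add_cancel] at h5
    have h6 : (β i - β j)⁻¹ * (θ (β i - β j) - ((v.r (β i - β j) : ℚ) : Ω) * (β i - β j)) =
        θ (β i - β j) / (β i - β j) - ((v.r (β i - β j) : ℚ) : Ω) := by
      field_simp
    rw [h6] at h5
    have h7 := v.gt_rat_mul (q := a i j) h5
    rwa [mul_sub] at h7
  -- node data
  choose q hq1 hq2 using hB
  have hpsin : psi δ a Finset.univ = δ' := by
    unfold psi
    rw [ha]
    ring
  have hqpsi : ∀ (t : ℤ) (i : Fin n), psi δ a (cl v β t i) ≤ q t i ∧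
      (2 ≤ (cl v β t i).card → (cl v β t i).card ≤ n - 1 →
        psi δ a (cl v β t i) < q t i) := by
    intro t i
    have hcard : (cl v β t i).card ≤ n := by
      have := Finset.card_le_univ (cl v β t i)
      simpa using this
    have hpos := card_cl_pos v β t i
    have hmid : 2 ≤ (cl v β t i).card → (cl v β t i).card ≤ n - 1 →
        psi δ a (cl v β t i) < q t i := fun h1 h2 => lt_of_lt_of_le (hδ _ h1 h2) (hq2 t i)
    refine ⟨?_, hmid⟩
    rcases Nat.lt_or_ge (cl v β t i).card 2 with h1 | h1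
    · have hone : (cl v β t i).card = 1 := by omega
      obtain ⟨a', ha'⟩ := Finset.card_eq_one.1 hone
      have hai : a' = i := by
        have := self_mem_cl v β t i
        rw [ha', Finset.mem_singleton] at this
        exact this.symm
      subst hai
      have h2 := hq1 t a'
      rw [ha', Finset.sum_singleton, sub_self, mul_zero, add_zero] at h2
      have h3 : v.gt 0 (((δ a' - q t a' : ℚ)) : Ω) := by push_cast; exact h2
      have h4 := v.rat_eq_zero_of_gt h3
      have h5 : psi δ a {a'} = δ a' := by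
        unfold psi
        rw [Finset.sum_singleton, Finset.sum_singleton, Finset.erase_singleton,
          Finset.sum_empty, sub_zero]
      rw [ha', h5]
      linarith
    · rcases Nat.lt_or_ge (cl v β t i).card n with h2 | h2
      · exact (hmid h1 (by omega)).le
      · have hfull : cl v β t i = Finset.univ := by
          apply Finset.eq_univ_of_card
          rw [Fintype.card_fin]; omega
        have h3 := hq1 t i
        rw [hfull] at h3
        have h5 : ∑ j, ((δ j : Ω) + c j * (β j - β i)) = (δ' : Ω) := by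
          simp only [mul_sub]
          rw [Finset.sum_add_distrib, Finset.sum_sub_distrib, ← Finset.sum_mul, hc0, zero_mul,
            sub_zero, hc1]
          ring
        rw [h5] at h3
        have h4 := v.rat_eq_zero_of_gt (q := δ' - q t i) (by push_cast; exact h3)
        rw [hfull, hpsin]
        linarith
  let ξ : ℚ := ∑ s ∈ Finset.range K, ∑ i : Fin n,
    (((cl v β (lev s) i).card : ℚ))⁻¹ * (q (m + s) i - psi δ a (cl v β (lev s) i))
  have hcardeq : ∀ s i, (cl v β (lev s) i) = cl v β ((m + s : ℤ) : ℚ) i := by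
    intro s i; rw [hlev]
  have hterm_nonneg : ∀ s i, 0 ≤ (((cl v β (lev s) i).card : ℚ))⁻¹ *
      (q (m + s) i - psi δ a (cl v β (lev s) i)) := by
    intro s i
    apply mul_nonneg
    · positivity
    · rw [hcardeq]
      exact sub_nonneg.2 (hqpsi (m + s) i).1
  refine ⟨ξ, ?_, ?_, ?_⟩
  · exact Finset.sum_nonneg (fun s _ => Finset.sum_nonneg (fun i _ => hterm_nonneg s i))
  · -- the congruence
    have hDs : ∀ s, v.gt 0 (D s + ((∑ i : Fin n,
        ∑ j ∈ (cl v β (lev s) i).erase i, a i j : ℚ) : Ω) -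
        ((∑ i : Fin n, (((cl v β (lev s) i).card : ℚ))⁻¹ *
          (q (m + s) i - psi δ a (cl v β (lev s) i)) : ℚ) : Ω)) := by
      intro s
      have h1 : D s = ∑ i, (((cl v β (lev s) i).card : ℕ) : Ω)⁻¹ *
          ∑ j ∈ cl v β (lev s) i, c j * (β j - mean v β (lev s) i) := by
        simp only [D]
        rw [sum_cl_avg v β (lev s)]
        apply Finset.sum_congr rfl
        intro i _
        congr 1
        apply Finset.sum_congr rfl
        intro j hj
        rw [mean_eq_of_mem v β hj]
      have h1' : ((∑ i : Fin n, ∑ j ∈ (cl v β (lev s) i).erase i, a i j : ℚ) : Ω) =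
          ∑ i, (((cl v β (lev s) i).card : ℕ) : Ω)⁻¹ *
          ∑ j ∈ cl v β (lev s) i, ∑ l ∈ (cl v β (lev s) i).erase j, (a j l : Ω) := by
        push_cast
        rw [sum_cl_avg v β (lev s)]
        apply Finset.sum_congr rfl
        intro i _
        congr 1
        apply Finset.sum_congr rfl
        intro j hj
        rw [cl_eq_of_mem v β hj]
      rw [h1, h1']
      push_cast
      rw [← Finset.sum_add_distrib, ← Finset.sum_sub_distrib]
      apply v.gt_sum
      intro i _
      have hk0 := card_cl_ne v β (lev s) i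
      set k : Ω := (((cl v β (lev s) i).card : ℕ) : Ω) with hk
      have h2 : ∑ j ∈ cl v β (lev s) i, c j * (β j - mean v β (lev s) i) =
          (∑ j ∈ cl v β (lev s) i, ((δ j : Ω) + c j * (β j - β i)) -
            ∑ j ∈ cl v β (lev s) i, (δ j : Ω)) -
          (∑ j ∈ cl v β (lev s) i, c j) * (mean v β (lev s) i - β i) := by
        rw [Finset.sum_add_distrib, Finset.sum_mul, add_sub_cancel_left,
          ← Finset.sum_sub_distrib]
        apply Finset.sum_congr rfl
        intro j _
        ring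
      have h3 : v.gt 0 ((∑ j ∈ cl v β (lev s) i, c j) * (mean v β (lev s) i - β i)) := by
        have h4 := hA (m + s) i
        rw [← hlev] at h4
        have h5 := h4.mul (mean_sub v β (lev s) i)
        refine h5.gt ?_
        linarith
      have h4 := hq1 (m + s) i
      rw [← hlev] at h4
      have h5 := v.gt_rat_mul (q := (((cl v β (lev s) i).card : ℕ) : ℚ)⁻¹) (h4.sub h3)
      have e : k⁻¹ * ∑ j ∈ cl v β (lev s) i, c j * (β j - mean v β (lev s) i) +
          k⁻¹ * ∑ j ∈ cl v β (lev s) i, ∑ l ∈ (cl v β (lev s) i).erase j, (a j l : Ω) -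
          k⁻¹ * ((q (m + s) i : Ω) - (psi δ a (cl v β (lev s) i) : Ω)) =
          (((((cl v β (lev s) i).card : ℕ) : ℚ)⁻¹ : ℚ) : Ω) *
          (∑ j ∈ cl v β (lev s) i, ((δ j : Ω) + c j * (β j - β i)) - (q (m + s) i : Ω) -
            (∑ j ∈ cl v β (lev s) i, c j) * (mean v β (lev s) i - β i)) := by
        rw [h2]
        unfold psi
        push_cast
        rw [← hk]
        ring
      rw [e]
      exact h5
    have h2 := hfirst.add hsecond
    have h3 : v.gt 0 (∑ s ∈ Finset.range K, (D s + ((∑ i : Fin n,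
        ∑ j ∈ (cl v β (lev s) i).erase i, a i j : ℚ) : Ω) -
        ((∑ i : Fin n, (((cl v β (lev s) i).card : ℚ))⁻¹ *
          (q (m + s) i - psi δ a (cl v β (lev s) i)) : ℚ) : Ω))) :=
      v.gt_sum _ _ _ (fun s _ => hDs s)
    have h4 := h2.add h3
    rw [Finset.sum_sub_distrib, Finset.sum_add_distrib, ← Rat.cast_sum,
      ← Rat.cast_sum] at h4
    have h5 : ((((m : ℚ) - 1) * (∑ i, ∑ j ∈ Finset.univ.erase i, a i j) +
        ∑ s ∈ Finset.range K, ∑ i : Fin n, ∑ j ∈ (cl v β (lev s) i).erase i, a i j : ℚ) : Ω) =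
        ((m : Ω) - 1) * (∑ i, (δ i : Ω) - (δ' : Ω)) +
        ((∑ s ∈ Finset.range K, ∑ i : Fin n,
          ∑ j ∈ (cl v β (lev s) i).erase i, a i j : ℚ) : Ω) := by
      rw [ha, Rat.cast_add]
      push_cast
      ring
    rw [h5, hD0] at h4
    change v.gt 0 (_ - ((∑ s ∈ Finset.range K, ∑ i : Fin n, (((cl v β (lev s) i).card : ℚ))⁻¹ *
      (q (m + s) i - psi δ a (cl v β (lev s) i)) : ℚ) : Ω))
    generalize ((∑ s ∈ Finset.range K, ∑ i : Fin n, (((cl v β (lev s) i).card : ℚ))⁻¹ *
      (q (m + s) i - psi δ a (cl v β (lev s) i)) : ℚ) : Ω) = X1 at h4 ⊢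
    generalize ((∑ s ∈ Finset.range K, ∑ i : Fin n,
      ∑ j ∈ (cl v β (lev s) i).erase i, a i j : ℚ) : Ω) = X2 at h4
    generalize (∑ i, c i * θ (β i)) = X3 at h4 ⊢
    generalize (∑ i, ∑ j ∈ Finset.univ.erase i,
      (a i j : Ω) * (θ (β i - β j) / (β i - β j))) = X4 at h4 ⊢
    generalize (∑ s ∈ Finset.range K, D s) = X5 at h4
    have e : X3 + X4 - X1 = X3 - (((m : Ω) - 1) * ((δ' : Ω) - ∑ i, (δ i : Ω)) + X5) +
        (X4 - (((m : Ω) - 1) * (∑ i, (δ i : Ω) - (δ' : Ω)) + X2)) + (X5 + X2 - X1) := by ring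
    rw [e]
    exact h4
  · intro i j l hij hli hlt
    obtain ⟨z, hz⟩ := hint i j hij
    have h1 : (m : ℚ) ≤ z := by rw [← hz]; exact hm i j hij
    have h2 : (z : ℚ) < m + K := by rw [← hz]; exact hKM i j hij
    have h1' : m ≤ z := by exact_mod_cast h1
    have h2' : z < m + K := by exact_mod_cast h2
    obtain ⟨s, hs⟩ := Int.eq_ofNat_of_zero_le (sub_nonneg.2 h1')
    have hsK : s < K := by omega
    have hzs : z = m + s := by omega
    have hlevs : lev s = v.r (β i - β j) := by rw [hz, hlev, hzs]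
    have hj : j ∈ cl v β (lev s) i := by
      rw [mem_cl, hlevs, v.ge_of_ne (hne j i hij.symm), v.r_sub_comm (fun h => hij (hβ h).symm)]
    have hl : l ∉ cl v β (lev s) i := by
      rw [mem_cl, hlevs, v.ge_of_ne (hne l i hli), v.r_sub_comm (fun h => hli (hβ h))]
      exact not_le.2 hlt
    have hcard2 : 2 ≤ (cl v β (lev s) i).card := by
      have h3 : ({i, j} : Finset (Fin n)) ⊆ cl v β (lev s) i := by
        intro a ha
        rw [Finset.mem_insert, Finset.mem_singleton] at ha
        rcases ha with rfl | rfl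
        · exact self_mem_cl v β _ _
        · exact hj
      have h4 := Finset.card_le_card h3
      rwa [Finset.card_pair hij] at h4
    have hcardn : (cl v β (lev s) i).card ≤ n - 1 := by
      have h3 : cl v β (lev s) i ⊆ Finset.univ.erase l := by
        intro a ha
        rw [Finset.mem_erase]
        refine ⟨?_, Finset.mem_univ _⟩
        rintro rfl; exact hl ha
      have h4 := Finset.card_le_card h3
      rwa [Finset.card_erase_of_mem (Finset.mem_univ l), Finset.card_univ, Fintype.card_fin] at h4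
    have hstrict : 0 < (((cl v β (lev s) i).card : ℚ))⁻¹ *
        (q (m + s) i - psi δ a (cl v β (lev s) i)) := by
      apply mul_pos
      · have := card_cl_pos v β (lev s) i
        positivity
      · rw [hcardeq] at hcard2 hcardn ⊢
        exact sub_pos.2 ((hqpsi (m + s) i).2 hcard2 hcardn)
    have h5 : 0 < ∑ i : Fin n, (((cl v β (lev s) i).card : ℚ))⁻¹ *
        (q (m + s) i - psi δ a (cl v β (lev s) i)) :=
      lt_of_lt_of_le hstrict (Finset.single_le_sum (f := fun i => (((cl v β (lev s) i).card : ℚ))⁻¹ *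
        (q (m + s) i - psi δ a (cl v β (lev s) i))) (fun i _ => hterm_nonneg s i)
        (Finset.mem_univ i))
    exact lt_of_lt_of_le h5 (Finset.single_le_sum (f := fun s => ∑ i : Fin n,
      (((cl v β (lev s) i).card : ℚ))⁻¹ * (q (m + s) i - psi δ a (cl v β (lev s) i)))
      (fun s _ => Finset.sum_nonneg (fun i _ => hterm_nonneg s i)) (Finset.mem_range.2 hsK))

end

end Helper12.W
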