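import Pool.Agent.Helper12.LocalScaled
import Pool.Agent.Helper68.OperW.Local

namespace Helper12.W

open Helper12

section

variable {Ω : Type*} [Field Ω] [CharZero Ω] (v : QVal Ω) {n : ℕ} (β c : Fin n → Ω)

/-- The local theorem for a rational valuation. -/
theorem local_thm (hβ : Function.Injective β) (hn : 0 < n)
    (δ : Fin n → ℚ) (δ' : ℚ) (a : Fin n → Fin n → ℚ)
    (ha : ∑ i, ∑ j ∈ Finset.univ.erase i, a i j = ∑ i, δ i - δ')
    (hδ : ∀ I : Finset (Fin n), 2 ≤ I.card → I.card ≤ n - 1 → psi δ a I < -1 / 4)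
    (hc0 : ∑ i, c i = 0)
    (hc1 : ∑ i, c i * β i = (δ' : Ω) - ∑ i, (δ i : Ω))
    (hnode : ∀ (i0 : Fin n) (I : Finset (Fin n)) (lo hi : ℚ), Ann v β i0 I lo hi →
      ∀ ρ, lo < ρ → ρ < hi → v.ge (-ρ) (∑ i ∈ I, c i) ∧
        ∃ q : ℚ, v.gt 0 (∑ i ∈ I, ((δ i : Ω) + c i * (β i - β i0)) - (q : Ω)) ∧ -1 / 4 ≤ q)
    (θ : Ω →+ Ω) (hθ : ∀ x : Ω, x ≠ 0 → v.gt (v.r x) (θ x - ((v.r x : ℚ) : Ω) * x)) :
    ∃ ξ : ℚ, 0 ≤ ξ ∧
      v.gt 0 (∑ i, c i * θ (β i) +
        ∑ i, ∑ j ∈ Finset.univ.erase i, (a i j : Ω) * (θ (β i - β j) / (β i - β j)) -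
          (ξ : Ω)) ∧
      (∀ i j l, i ≠ j → l ≠ i → v.r (β i - β l) < v.r (β i - β j) → 0 < ξ) := by
  classical
  -- common denominator
  let Mn : ℕ := ∏ x : Fin n × Fin n, (v.r (β x.1 - β x.2)).den
  have hMn : 0 < Mn := Finset.prod_pos (fun x _ => Rat.den_pos _)
  set M : ℚ := (Mn : ℚ) with hMdef
  have hM : 0 < M := by rw [hMdef]; exact_mod_cast hMn
  have hMΩ : (M : Ω) ≠ 0 := by rw [hMdef]; exact_mod_cast hMn.ne'
  have hintr : ∀ i j, ∃ z : ℤ, M * v.r (β i - β j) = z := by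
    intro i j
    have hdvd : (v.r (β i - β j)).den ∣ Mn :=
      Finset.dvd_prod_of_mem (fun x : Fin n × Fin n => (v.r (β x.1 - β x.2)).den)
        (Finset.mem_univ (i, j))
    obtain ⟨k, hk⟩ := hdvd
    refine ⟨k * (v.r (β i - β j)).num, ?_⟩
    have h1 : (v.r (β i - β j)) * (v.r (β i - β j)).den = (v.r (β i - β j)).num :=
      Rat.mul_den_eq_num _
    rw [hMdef, hk]
    push_cast
    rw [← h1]
    ring
  let v' := v.scale M hM
  have hann : ∀ (t : ℤ) (i : Fin n), Ann v β i (cl v' β t i) (((t : ℚ) - 1) / M) ((t : ℚ) / M) := by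
    intro t i
    refine ⟨self_mem_cl v' β t i, ?_, ?_, ?_⟩
    · exact div_lt_div_of_pos_right (by linarith) hM
    · intro j hj
      rw [mem_cl, v.scale_ge] at hj
      exact hj
    · intro j hj
      rw [mem_cl] at hj
      have h0 : β j - β i ≠ 0 := fun h => hj (Or.inl h)
      refine ⟨h0, ?_⟩
      rw [v'.ge_of_ne h0, not_le] at hj
      obtain ⟨z, hz⟩ := hintr j i
      have hz' : v'.r (β j - β i) = z := hz
      rw [hz'] at hj
      have h1 : z < t := by exact_mod_cast hj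
      have h2 : z ≤ t - 1 := by omega
      have h3 : (z : ℚ) ≤ (t : ℚ) - 1 := by exact_mod_cast h2
      rw [le_div_iff₀ hM, mul_comm, hz]
      exact h3
  have hA : ∀ (t : ℤ) (i : Fin n), v'.ge (-((t : ℚ) - 1)) (∑ j ∈ cl v' β t i, c j) := by
    intro t i
    by_cases h0 : ∑ j ∈ cl v' β t i, c j = 0
    · rw [h0]; exact v'.ge_zero _
    · rw [v.scale_ge, v.ge_of_ne h0]
      by_contra hcon
      push Not at hcon
      set x := ∑ j ∈ cl v' β t i, c j with hx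
      have h1 : ((t : ℚ) - 1) / M < min ((t : ℚ) / M) (- v.r x) := by
        rw [lt_min_iff]
        refine ⟨(hann t i).lt, ?_⟩
        have : -((t : ℚ) - 1) / M = - (((t : ℚ) - 1) / M) := by ring
        rw [this] at hcon
        linarith
      obtain ⟨ρ, hρ1, hρ2⟩ := exists_between h1
      have h2 := (hnode i _ _ _ (hann t i) ρ hρ1 (lt_of_lt_of_le hρ2 (min_le_left _ _))).1
      rw [← hx, v.ge_of_ne h0] at h2
      have h3 := lt_of_lt_of_le hρ2 (min_le_right _ _)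
      linarith
  have hB : ∀ (t : ℤ) (i : Fin n), ∃ q : ℚ,
      v'.gt 0 (∑ j ∈ cl v' β t i, ((δ j : Ω) + c j * (β j - β i)) - (q : Ω)) ∧ -1 / 4 ≤ q := by
    intro t i
    obtain ⟨ρ, hρ1, hρ2⟩ := exists_between (hann t i).lt
    obtain ⟨-, q, hq1, hq2⟩ := hnode i _ _ _ (hann t i) ρ hρ1 hρ2
    refine ⟨q, ?_, hq2⟩
    rw [v.scale_gt, zero_div]
    exact hq1
  let θ' : Ω →+ Ω := (AddMonoidHom.mulLeft (M : Ω)).comp θ
  have hθ'v : ∀ x, θ' x = (M : Ω) * θ x := fun x => rfl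
  have hθ' : ∀ x : Ω, x ≠ 0 → v'.gt (v'.r x) (θ' x - ((v'.r x : ℚ) : Ω) * x) := by
    intro x hx
    rw [v.scale_gt, hθ'v]
    have h1 : v'.r x / M = v.r x := by
      change M * v.r x / M = v.r x
      field_simp
    have h2 : (M : Ω) * θ x - ((v'.r x : ℚ) : Ω) * x =
        (M : Ω) * (θ x - ((v.r x : ℚ) : Ω) * x) := by
      have : v'.r x = M * v.r x := rfl
      rw [this]; push_cast; ring
    rw [h1, h2]
    exact v.gt_rat_mul (hθ x hx)
  obtain ⟨ξ', h1, h2, h3⟩ := local_int v' β c hβ (fun i j _ => hintr i j) hn δ δ' a ha hδ hc0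
    hc1 hA hB θ' hθ'
  refine ⟨ξ' / M, by positivity, ?_, ?_⟩
  · rw [v.scale_gt, zero_div] at h2
    have h4 := v.gt_rat_mul (q := M⁻¹) h2
    have e1 : ∑ i, c i * θ' (β i) = (M : Ω) * ∑ i, c i * θ (β i) := by
      rw [Finset.mul_sum]
      exact Finset.sum_congr rfl (fun i _ => by rw [hθ'v]; ring)
    have e2 : ∑ i, ∑ j ∈ Finset.univ.erase i, (a i j : Ω) * (θ' (β i - β j) / (β i - β j)) =
        (M : Ω) * ∑ i, ∑ j ∈ Finset.univ.erase i,
          (a i j : Ω) * (θ (β i - β j) / (β i - β j)) := by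
      rw [Finset.mul_sum]
      apply Finset.sum_congr rfl
      intro i _
      rw [Finset.mul_sum]
      exact Finset.sum_congr rfl (fun j _ => by rw [hθ'v]; ring)
    have e3 : ((M⁻¹ : ℚ) : Ω) * (∑ i, c i * θ' (β i) +
        ∑ i, ∑ j ∈ Finset.univ.erase i, (a i j : Ω) * (θ' (β i - β j) / (β i - β j)) -
          (ξ' : Ω)) =
        ∑ i, c i * θ (β i) +
        ∑ i, ∑ j ∈ Finset.univ.erase i, (a i j : Ω) * (θ (β i - β j) / (β i - β j)) -
          ((ξ' / M : ℚ) : Ω) := by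
      rw [e1, e2]
      push_cast
      field_simp
    rw [e3] at h4
    exact h4
  · intro i j l hij hli hlt
    have h4 := h3 i j l hij hli (by
      change M * v.r (β i - β l) < M * v.r (β i - β j)
      exact mul_lt_mul_of_pos_left hlt hM)
    positivity

end

end Helper12.W
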