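import Pool.Agent.Helper68.OperW.Oper
import Pool.Agent.Helper68.OperW.Global
import Pool.Agent.Helper12.Descent
import Pool.Agent.Helper12.Bridge

namespace Helper12.W

open Helper12 Polynomial

universe u v

theorem psi_wt (n : ℕ) (hn : 2 ≤ n) (δ : Fin n → ℚ) (δ' : ℚ) (hcut : CutCondition n δ δ')
    (I : Finset (Fin n)) (h2 : 2 ≤ I.card) (h3 : I.card ≤ n - 1) :
    psi δ (wt n δ δ') I < -1 / 4 := by
  have h0 : (0 : ℚ) < n := by exact_mod_cast (by omega : 0 < n)
  have h1 : (0 : ℚ) < (n : ℚ) - 1 := by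
    have : (2 : ℚ) ≤ n := by exact_mod_cast hn
    linarith
  have hc := hcut I h2 (by omega)
  rw [← Finset.mul_sum, ← Finset.mul_sum] at hc
  unfold psi
  rw [sum_wt]
  set k : ℚ := (I.card : ℚ) with hk
  set s : ℚ := ∑ i ∈ I, δ i with hs
  set t : ℚ := ∑ i, δ i with ht
  have e : s - (2 * (k - 1) * s / ((n : ℚ) - 1) - k * (k - 1) * (t + δ') / (n * ((n : ℚ) - 1))) =
      -((((n : ℚ) + 1 - 2 * k) * (-4 * s) + k * (k - 1) * (-4 * t + -4 * δ') / n) /
        (4 * ((n : ℚ) - 1))) := by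
    have h0' := h0.ne'
    have h1' := h1.ne'
    field_simp
    ring
  rw [e, neg_div, neg_lt_neg_iff, lt_div_iff₀ (by linarith)]
  linarith

theorem main {R : Type u} {K : Type v} [CommRing R] [IsDomain R] [Algebra.FiniteType ℤ R]
    [Field K] [CharZero K] [Algebra R K] [IsFractionRing R K]
    (n r : ℕ) (hr : 2 ≤ r) (δ : Fin n → ℚ) (δ' : ℚ) (hδ : CutCondition n δ δ')
    (b : Fin n → R) (hb : Function.Injective b) (hb0 : ∃ i, b i = 0) (hb1 : ∃ i, b i = 1)
    (P Q : ℕ → R[X]) (hL : IsOperOfType K r δ δ' b P Q)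
    (h : R) (hh : h ≠ 0) (hnil : NilpotentAtClosedPoints r b P Q h) :
    (∀ i, IsAlgebraic ℚ (algebraMap R K (b i))) ∧
    ∀ j, 1 ≤ j → j ≤ r → ∀ m, IsAlgebraic ℚ (algebraMap R K ((P j).coeff m)) ∧
      IsAlgebraic ℚ (algebraMap R K ((Q j).coeff m)) := by
  have hinj : Function.Injective (algebraMap R K) := IsFractionRing.injective R K
  haveI : CharZero R := ⟨fun a a' haa => by
    have := congrArg (algebraMap R K) haa
    rw [map_natCast, map_natCast] at this
    exact_mod_cast this⟩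
  obtain ⟨hP1, hQ1, c, hP2, hc0, hc1⟩ := hL
  obtain ⟨i0, hi0⟩ := hb0
  obtain ⟨i1, hi1⟩ := hb1
  have hR := nilCoef_of_nilpotent b r P Q (by omega) hb i0 h hh hnil
  have hb' : Function.Injective (fun i => algebraMap R K (b i)) := hinj.comp hb
  have hc1' : ∑ i, c i * algebraMap R K (b i) = (δ' : K) - ∑ i, (δ i : K) := by
    rw [Finset.sum_add_distrib] at hc1
    linear_combination hc1
  have h01 : i1 ≠ i0 := by
    rintro rfl
    rw [hi0] at hi1
    exact zero_ne_one hi1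
  have hn : 2 ≤ n := by
    have h1 := Finset.card_le_univ ({i0, i1} : Finset (Fin n))
    rw [Finset.card_pair h01.symm, Fintype.card_fin] at h1
    exact h1
  have halg : ∀ i, IsAlgebraic ℚ (algebraMap R K (b i)) := by
    intro i
    by_cases hii : i = i0
    · rw [hii, hi0, map_zero]; exact isAlgebraic_zero
    · have h1 := global_thm b r P Q c δ δ' (wt n δ δ') hb' hr (by omega) (sum_wt_univ n hn δ δ')
        (fun I h2 h3 => psi_wt n hn δ δ' hδ I h2 h3) hc0 hc1' hP2 hP1 hQ1 hR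
        (i := i0) (j := i) (l := i1) (Ne.symm hii) h01
      rw [hi0, hi1, map_zero, map_one, zero_sub, zero_sub, div_neg, div_one, neg_neg] at h1
      exact h1
  refine ⟨halg, ?_⟩
  intro j hj hjr m
  exact coeff_algebraic b r P Q hb' halg hR i0 hi0 j hj hjr m

/-- The cut condition holds if all local types are at most `- 3 / 16` (exponent differences
`μ` with `μ ^ 2 ≤ 1 / 4`), unless there are four points and all of them are `- 3 / 16`. -/
theorem cutCondition_of_le (n : ℕ) (δ : Fin n → ℚ) (δ' : ℚ)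
    (h1 : ∀ i, δ i ≤ -3 / 16) (h2 : δ' ≤ -3 / 16)
    (h3 : n = 3 → (∑ i, δ i) + δ' ≠ -3 / 4) : CutCondition n δ δ' := by
  classical
  intro I hI2 hIn
  have hn3 : 3 ≤ n := by omega
  have hn : (0 : ℚ) < n := by exact_mod_cast (by omega : 0 < n)
  have hcompl : ∑ i, (-4 * δ i) = ∑ i ∈ I, (-4 * δ i) + ∑ i ∈ Iᶜ, (-4 * δ i) :=
    (Finset.sum_add_sum_compl I _).symm
  have hcc : ((Iᶜ.card : ℕ) : ℚ) = (n : ℚ) - I.card := by
    rw [Finset.card_compl, Fintype.card_fin, Nat.cast_sub (le_of_lt hIn)]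
  have hs : 3 / 4 * (I.card : ℚ) ≤ ∑ i ∈ I, (-4 * δ i) := by
    have h := Finset.card_nsmul_le_sum I (fun i => -4 * δ i) (3 / 4)
      (fun i _ => by have := h1 i; linarith)
    rw [nsmul_eq_mul] at h
    linarith
  have hs' : 3 / 4 * ((n : ℚ) - I.card) ≤ ∑ i ∈ Iᶜ, (-4 * δ i) := by
    have h := Finset.card_nsmul_le_sum Iᶜ (fun i => -4 * δ i) (3 / 4)
      (fun i _ => by have := h1 i; linarith)
    rw [nsmul_eq_mul, hcc] at h
    linarith
  rw [hcompl]
  have hstrict : n = 3 → 3 < ∑ i ∈ I, (-4 * δ i) + ∑ i ∈ Iᶜ, (-4 * δ i) + (-4 * δ') := by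
    intro h
    have h4 : (∑ i, δ i) + δ' ≤ -3 / 4 := by
      have h5 := Finset.sum_le_card_nsmul Finset.univ δ (-3 / 16) (fun i _ => h1 i)
      rw [Finset.card_univ, Fintype.card_fin, nsmul_eq_mul] at h5
      have h6 : (n : ℚ) = 3 := by exact_mod_cast h
      have h7 : (n : ℚ) * (-3 / 16) = -9 / 16 := by rw [h6]; norm_num
      linarith
    have h5 := lt_of_le_of_ne h4 (h3 h)
    rw [← hcompl, ← Finset.mul_sum]
    linarith
  set s : ℚ := ∑ i ∈ I, (-4 * δ i) with hsdef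
  set s' : ℚ := ∑ i ∈ Iᶜ, (-4 * δ i) with hs'def
  obtain ⟨w, hw⟩ : ∃ w : ℚ, w = s' + (-4 * δ') := ⟨_, rfl⟩
  have hw' : 3 / 4 * ((n : ℚ) + 1 - I.card) ≤ w := by rw [hw]; linarith
  have e0 : s + s' + (-4 * δ') = s + w := by rw [hw]; ring
  rw [e0] at hstrict ⊢
  set k : ℚ := (I.card : ℚ) with hk
  have hk2 : (2 : ℚ) ≤ k := by rw [hk]; exact_mod_cast hI2
  have hkn : k + 1 ≤ n := by rw [hk]; exact_mod_cast hIn
  rcases Nat.lt_or_ge 3 n with h4 | h4
  · have hn4 : (4 : ℚ) ≤ n := by exact_mod_cast h4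
    -- the product bound
    have hprod : 4 * (n : ℚ) < 3 * (k * ((n : ℚ) + 1 - k)) := by
      nlinarith [mul_nonneg (sub_nonneg.2 hk2) (sub_nonneg.2 hkn)]
    have hval : (n : ℚ) - 1 < 3 / 4 * (k * ((n : ℚ) + 1 - k)) * ((n : ℚ) - 1) / n := by
      rw [lt_div_iff₀ hn]
      nlinarith [mul_pos (sub_pos.2 hprod) (by linarith : (0 : ℚ) < (n : ℚ) - 1)]
    rcases le_total (2 * k) ((n : ℚ) + 1) with h5 | h5
    · have h6 : 3 / 4 * (k * ((n : ℚ) + 1 - k)) * ((n : ℚ) - 1) / n =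
          ((n : ℚ) + 1 - 2 * k) * (3 / 4 * k) +
            k * (k - 1) * (3 / 4 * k + 3 / 4 * ((n : ℚ) + 1 - k)) / n := by
        field_simp
        ring
      have h7 : ((n : ℚ) + 1 - 2 * k) * (3 / 4 * k) ≤ ((n : ℚ) + 1 - 2 * k) * s :=
        mul_le_mul_of_nonneg_left hs (by linarith)
      have h8 : k * (k - 1) * (3 / 4 * k + 3 / 4 * ((n : ℚ) + 1 - k)) / n ≤
          k * (k - 1) * (s + w) / n := by
        apply div_le_div_of_nonneg_right _ hn.le
        apply mul_le_mul_of_nonneg_left (by linarith)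
        exact mul_nonneg (by linarith) (by linarith)
      linarith
    · have h6 : 3 / 4 * (k * ((n : ℚ) + 1 - k)) * ((n : ℚ) - 1) / n =
          (2 * k - ((n : ℚ) + 1)) * (3 / 4 * ((n : ℚ) + 1 - k)) +
            ((n : ℚ) + 1 - k) * ((n : ℚ) - k) *
              (3 / 4 * k + 3 / 4 * ((n : ℚ) + 1 - k)) / n := by
        field_simp
        ring
      have h9 : ((n : ℚ) + 1 - 2 * k) * s + k * (k - 1) * (s + w) / n =
          (2 * k - ((n : ℚ) + 1)) * w + ((n : ℚ) + 1 - k) * ((n : ℚ) - k) * (s + w) / n := by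
        field_simp
        ring
      have h7 : (2 * k - ((n : ℚ) + 1)) * (3 / 4 * ((n : ℚ) + 1 - k)) ≤
          (2 * k - ((n : ℚ) + 1)) * w :=
        mul_le_mul_of_nonneg_left hw' (by linarith)
      have h8 : ((n : ℚ) + 1 - k) * ((n : ℚ) - k) *
          (3 / 4 * k + 3 / 4 * ((n : ℚ) + 1 - k)) / n ≤
          ((n : ℚ) + 1 - k) * ((n : ℚ) - k) * (s + w) / n := by
        apply div_le_div_of_nonneg_right _ hn.le
        apply mul_le_mul_of_nonneg_left (by linarith)
        exact mul_nonneg (by linarith) (by linarith)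
      rw [h9]
      linarith
  · have hn3' : n = 3 := by omega
    have h5 := hstrict hn3'
    have hk2' : k = 2 := by
      rw [hk]
      have : I.card = 2 := by omega
      rw [this]
      norm_num
    have hn3q : (n : ℚ) = 3 := by rw [hn3']; norm_num
    rw [hk2', hn3q]
    linarith

end Helper12.W
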