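import Mathlib
import Pool.Agent.Helper12.Oper

namespace Helper12.W

open Helper12 Polynomial

universe u v

/-- The operator `∂ ^ r + ∑_{1 ≤ j ≤ r} (P_j + Q_j y) / f ^ j · ∂ ^ (r - j)`, with `∂ = d/dx`,
`f = ∏ (x - b_i)`, `y² = f` and `P_j, Q_j ∈ R[x]`, is normalised (`P_1 = Q_1 = 0`) and of type
`δ i` at the point `b_i` and of type `δ'` at infinity: for some `c_i ∈ K`,
`P_2 / f² = - binom(r+1, 3) · ∑ i, (δ_i / (x - b_i)² + c_i / (x - b_i))`, `∑ c_i = 0` and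
`∑ (δ_i + c_i b_i) = δ'`. For `r = 2` this says that the exponents of the operator at `b_i` are
`(1 ± μ_i) / 2` with `δ_i = (μ_i ^ 2 - 1) / 4`, and that its exponents at infinity are
`(-1 ± μ') / 2` with `δ' = (μ' ^ 2 - 1) / 4`. -/
structure IsOperOfType {R : Type u} (K : Type v) [CommRing R] [Field K] [Algebra R K] {n : ℕ}
    (r : ℕ) (δ : Fin n → ℚ) (δ' : ℚ) (b : Fin n → R) (P Q : ℕ → R[X]) : Prop where
  P_one : P 1 = 0
  Q_one : Q 1 = 0
  second : ∃ c : Fin n → K, (P 2).map (algebraMap R K) =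
      - C (((r + 1).choose 3 : ℕ) : K) *
        ∑ i, (C (δ i : K) + C (c i) * (X - C (algebraMap R K (b i)))) *
          ∏ j ∈ Finset.univ.erase i, (X - C (algebraMap R K (b j))) ^ 2 ∧
    ∑ i, c i = 0 ∧ ∑ i, ((δ i : K) + c i * algebraMap R K (b i)) = δ'

/-- The condition on the local types `δ i` (at the `n` finite points) and `δ'` (at infinity). Put
`N = n + 1` for the number of points, `e = -4 δ = 1 - μ ^ 2` for each of them and `E` for the sum
of all `N` numbers `e`. Then for every set `I` of `k` finite points with `2 ≤ k ≤ N - 2` one asks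
that `(N - 2 k) · ∑_{i ∈ I} e_i + k (k - 1) · E / (N - 1) > N - 2`. (The condition for `I` is
equivalent to the condition for the complement of `I` in the set of all `N` points, so infinity
plays no special role.) -/
def CutCondition (n : ℕ) (δ : Fin n → ℚ) (δ' : ℚ) : Prop :=
  ∀ I : Finset (Fin n), 2 ≤ I.card → I.card < n →
    (n : ℚ) - 1 < ((n : ℚ) + 1 - 2 * I.card) * ∑ i ∈ I, (-4 * δ i) +
      I.card * (I.card - 1) * ((∑ i, (-4 * δ i)) + (-4 * δ')) / n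

/-- The weights. -/
def wt (n : ℕ) (δ : Fin n → ℚ) (δ' : ℚ) (i j : Fin n) : ℚ :=
  (δ i + δ j) / ((n : ℚ) - 1) - ((∑ i, δ i) + δ') / ((n : ℚ) * ((n : ℚ) - 1))

theorem sum_wt (n : ℕ) (δ : Fin n → ℚ) (δ' : ℚ) (I : Finset (Fin n)) :
    ∑ i ∈ I, ∑ j ∈ I.erase i, wt n δ δ' i j =
      (2 * ((I.card : ℚ) - 1) * ∑ i ∈ I, δ i) / ((n : ℚ) - 1) -
        I.card * ((I.card : ℚ) - 1) * ((∑ i, δ i) + δ') / ((n : ℚ) * ((n : ℚ) - 1)) := by
  classical
  have h1 : ∀ i ∈ I, ∑ j ∈ I.erase i, wt n δ δ' i j =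
      (((I.card : ℚ) - 2) * δ i + ∑ j ∈ I, δ j) / ((n : ℚ) - 1) -
        ((I.card : ℚ) - 1) * (((∑ i, δ i) + δ') / ((n : ℚ) * ((n : ℚ) - 1))) := by
    intro i hi
    have hc : (((I.erase i).card : ℕ) : ℚ) = (I.card : ℚ) - 1 := by
      rw [Finset.card_erase_of_mem hi, Nat.cast_sub (Finset.card_pos.2 ⟨i, hi⟩), Nat.cast_one]
    have hs : ∑ j ∈ I.erase i, δ j = ∑ j ∈ I, δ j - δ i := by
      rw [← Finset.add_sum_erase I δ hi]; ring
    unfold wt
    rw [Finset.sum_sub_distrib, ← Finset.sum_div, Finset.sum_add_distrib, Finset.sum_const,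
      Finset.sum_const, nsmul_eq_mul, nsmul_eq_mul, hc, hs]
    ring
  rw [Finset.sum_congr rfl h1, Finset.sum_sub_distrib, ← Finset.sum_div, Finset.sum_add_distrib,
    Finset.sum_const, Finset.sum_const, nsmul_eq_mul, nsmul_eq_mul, ← Finset.mul_sum]
  ring

theorem sum_wt_univ (n : ℕ) (hn : 2 ≤ n) (δ : Fin n → ℚ) (δ' : ℚ) :
    ∑ i, ∑ j ∈ Finset.univ.erase i, wt n δ δ' i j = ∑ i, δ i - δ' := by
  have h0 : (n : ℚ) ≠ 0 := by exact_mod_cast (by omega : n ≠ 0)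
  have h1 : (n : ℚ) - 1 ≠ 0 := by
    have : (2 : ℚ) ≤ n := by exact_mod_cast hn
    intro h
    linarith
  rw [sum_wt, Finset.card_univ, Fintype.card_fin]
  field_simp
  ring

end Helper12.W
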